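import Pool.Agent.H31.AM.PW

/-! helper31: enumeration of the roots by a fibre eigenbasis, the end value bound
(MP_29bb0a_mp, modules M4, N3). -/

open Filter Topology Polynomial
open scoped ComplexConjugate

namespace Pool.Agent.H31.AM

open Pool.Agent.H98.AM

theorem aeval_re (D : ℝ[X]) (x : ℝ) : aeval (x : ℂ) D = ((D.eval x : ℝ) : ℂ) :=
  Polynomial.aeval_algebraMap_apply_eq_algebraMap_eval (A := ℂ) x D

theorem mem_rts {s : ℕ} {D : ℝ[X]} (h : Disc s D) {e : ℝ} : e ∈ rts D ↔ D.eval e = 0 := by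
  unfold rts
  rw [Multiset.mem_toFinset, Polynomial.mem_roots h.mon.ne_zero]
  rfl

theorem enum {r : ℕ} {D : ℝ[X]} (h : Disc r D) (hc : (rts D).card = r) (ev : Fin r → ℝ)
    (hp : ∀ z : ℂ, ∏ i, (z - ev i) = aeval z D) :
    (∀ i, ev i ∈ rts D) ∧ (∀ e ∈ rts D, ∃ i, ev i = e) ∧ Function.Injective ev := by
  have h1 : ∀ i, ev i ∈ rts D := by
    intro i
    rw [mem_rts h]
    have h2 := hp (ev i)
    rw [aeval_re, Finset.prod_eq_zero (Finset.mem_univ i) (sub_self _)] at h2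
    exact_mod_cast h2.symm
  have h2 : ∀ e ∈ rts D, ∃ i, ev i = e := by
    intro e he
    rw [mem_rts h] at he
    have h3 := hp e
    rw [aeval_re, he, Complex.ofReal_zero, Finset.prod_eq_zero_iff] at h3
    obtain ⟨i, -, hi⟩ := h3
    refine ⟨i, ?_⟩
    have h4 := sub_eq_zero.1 hi
    exact_mod_cast h4.symm
  refine ⟨h1, h2, ?_⟩
  have h5 : Finset.univ.image ev = rts D := by
    ext e
    simp only [Finset.mem_image, Finset.mem_univ, true_and]
    constructor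
    · rintro ⟨i, rfl⟩; exact h1 i
    · exact h2 e
  have h6 : (Finset.univ.image ev).card = (Finset.univ : Finset (Fin r)).card := by
    rw [h5, hc, Finset.card_univ, Fintype.card_fin]
  have h7 := Finset.card_image_iff.1 h6
  intro a b hab
  exact h7 (by simp) (by simp) hab

theorem ex_half : ex (1 / 2) = -1 := by
  unfold ex
  rw [show (2 * Real.pi * ((1 / 2 : ℝ) : ℂ) * Complex.I : ℂ) = Real.pi * Complex.I by
    push_cast; ring]
  exact Complex.exp_pi_mul_I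

theorem norm_one_sub_ex (t : ℝ) : ‖1 - ex t‖ ≤ 2 * Real.pi * |t| := by
  have h := Real.norm_exp_I_mul_ofReal_sub_one_le (x := 2 * Real.pi * t)
  rw [norm_sub_rev]
  unfold ex
  rw [show (2 * Real.pi * (t : ℂ) * Complex.I : ℂ) = Complex.I * ((2 * Real.pi * t : ℝ) : ℂ) by
    push_cast; ring]
  refine h.trans (le_of_eq ?_)
  rw [Real.norm_eq_abs, abs_mul, abs_of_pos (by positivity : (0 : ℝ) < 2 * Real.pi)]

theorem tt_half (r : ℕ) (hr : 1 ≤ r) : tt r (1 / (2 * r)) Complex.I = 0 := by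
  have hr' : (r : ℝ) ≠ 0 := by positivity
  unfold tt
  rw [show (r : ℝ) * (1 / (2 * r)) = 1 / 2 by field_simp, ex_half]
  simp

theorem om_le_ends (hC3 : T_C3) (pr : ℤ) (r : ℕ) [NeZero r]
    (u : OrthonormalBasis (Fin r) ℂ (Rg r)) (ev : Fin r → ℝ) (hcop : IsCoprime pr (r : ℤ))
    (hr : 3 ≤ r) (hu : IsEB (Fi pr r (1 / (2 * r)) Complex.I) u ev)
    (i : Fin r) (hne : (Dl pr r).derivative.eval (ev i) ≠ 0) :
    om (Dl pr r) (ev i) ≤ Real.pi / (2 * r) * (‖u i 0‖ * ‖u i (-1)‖) := by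
  have hr' : (0 : ℝ) < r := by exact_mod_cast (by omega : 0 < r)
  have h := hC3 pr r (1 / (2 * r)) Complex.I (Fin r) u ev hcop hr (by simp)
    (tt_half r (by omega)) hu i
  rw [show (r : ℝ) * (1 / (2 * r)) = 1 / 2 by field_simp, ex_half] at h
  have h1 : ‖(1 : ℂ) - -1‖ = 2 := by norm_num
  rw [h1] at h
  have h2 : ‖bnd (pr / r) (1 / (2 * r)) 0‖ ≤ Real.pi / r := by
    unfold bnd
    refine (norm_one_sub_ex _).trans (le_of_eq ?_)
    rw [Int.cast_zero, zero_mul, zero_add, abs_of_pos (by positivity)]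
    field_simp
  have h3 : 0 < |(Dl pr r).derivative.eval (ev i)| := abs_pos.2 hne
  unfold om
  rw [div_le_iff₀ h3]
  have h4 : ‖bnd (pr / r) (1 / (2 * r)) 0‖ * (‖u i 0‖ * ‖u i (-1)‖)
      * |(Dl pr r).derivative.eval (ev i)| ≤ Real.pi / r * (‖u i 0‖ * ‖u i (-1)‖)
      * |(Dl pr r).derivative.eval (ev i)| := by
    gcongr
  have h5 : Real.pi / (2 * r) * (‖u i 0‖ * ‖u i (-1)‖) * |(Dl pr r).derivative.eval (ev i)|
      = (Real.pi / r * (‖u i 0‖ * ‖u i (-1)‖) * |(Dl pr r).derivative.eval (ev i)|) / 2 := by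
    field_simp
  rw [h5]
  linarith

end Pool.Agent.H31.AM
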