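import Pool.Agent.H31.AM.Enum

/-! helper31: MP_29bb0a_mp, module M4 (few wide bands). -/

open Filter Topology Polynomial
open scoped ComplexConjugate

namespace Pool.Agent.H31.AM

open Pool.Agent.H98.AM

/-- a ball with much `om`-mass contains a root with large `om` -/
theorem heavy_om (hD9 : T_D9) (s : ℕ) (D : ℝ[X]) (hD : Disc s D) (hs : 1 ≤ s) (E d S : ℝ)
    (hd : 0 < d) (hS : 8 ≤ S) (hb : S * d / 2 < bm D (om D) E d) :
    ∃ e ∈ rts D, |E - e| ≤ d ∧ S * d / 8 ≤ om D e := by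
  by_contra hcon
  push Not at hcon
  have h1 := hD9 s D hD hs ((D.roots.toFinset).filter (fun e => |e - E| ≤ d)) (E - d) (E + d)
    (S * d / 8) (by
      intro e he
      rw [Finset.mem_filter] at he
      have h2 := abs_le.1 he.2
      refine ⟨(mem_rts hD).1 he.1, by linarith, by linarith, ?_⟩
      exact (hcon e he.1 (by rw [abs_sub_comm]; exact he.2)).le) (by linarith) (by positivity)
  unfold bm at hb
  have h3 : (0 : ℝ) ≤ (S - 8) * d := mul_nonneg (by linarith) hd.le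
  have h4 : S * d / 2 < (E + d - (E - d)) / 4 + S * d / 8 := lt_of_lt_of_le hb h1
  linarith

set_option maxHeartbeats 4000000 in
theorem m4 (hB4 : T_B4) (hC1 : T_C1) (hC3 : T_C3) (hC5 : T_C5) (hC6 : T_C6) (hD9 : T_D9)
    (hE3 : T_E3) (hH9 : T_H9) (hI2 : T_I2) (hI5 : T_I5) (hM1 : T_M1) (hM2 : T_M2)
    (hM3 : T_M3) : T_M4 := by
  classical
  intro C0 hC0
  obtain ⟨K1, hK1, HM1⟩ := hM1 C0 hC0
  obtain ⟨K2, hK2, HM2⟩ := hM2 C0 hC0
  obtain ⟨K3, hK3, HM3⟩ := hM3 C0 hC0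
  obtain ⟨KI, hKI, HI2⟩ := hI2 (3 * C0) (by linarith)
  have hC00 : 0 < C0 := by linarith
  -- thresholds
  obtain ⟨T1, hT1⟩ := thr (tendsto_rpow_atTop (y := (1 / 400 : ℝ)) (by norm_num)
    |>.eventually_ge_atTop 8)
  obtain ⟨T2, hT2⟩ := thr (ev_pow' (Real.pi / 2 * K1 * C0 ^ (|(-2 - 3 / 400 : ℝ)| / 2)) (1 / 2)
    (-1 - 3 / 800) (-1 - 1 / 5000) (by positivity) (by norm_num) (by norm_num))
  obtain ⟨T3, hT3⟩ := thr (ev_pow' (8 * C0 ^ 3) (1 / 2) (-4) (-(5 / 3)) (by positivity)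
    (by norm_num) (by norm_num))
  obtain ⟨T4, hT4⟩ := thr (ev_pow' 1 (1 / 2) (-(7 / 4)) (-(5 / 3)) (by norm_num)
    (by norm_num) (by norm_num))
  obtain ⟨T5, hT5⟩ := thr (ev_pow' (10 * C0 ^ (|(2 - 1 / 400 : ℝ)| / 2)) (1 / 4)
    ((2 - 1 / 400) / 2) (1 - 1 / 5000) (by positivity) (by norm_num) (by norm_num))
  obtain ⟨T6, hT6⟩ := thr (ev_pow' (KI * (C0 ^ (|(-(3 / 4) : ℝ)| / 2)
    * (C0 ^ (|(-(3 / 4) / 2 : ℝ)| / 2) * C0 ^ (|(-(3 / 4) / 2 / 2 : ℝ)| / 2)))) (1 / 4)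
    (1 + -(3 / 4) / 2 / 2 / 2) (1 - 1 / 5000) (by positivity) (by norm_num) (by norm_num))
  obtain ⟨T7, hT7⟩ := thr (ev_pow' (K3 * C0 ^ (|(2 - 1 / 1600 : ℝ)| / 2)) (1 / 4)
    ((2 - 1 / 1600) / 2) (1 - 1 / 5000) (by positivity) (by norm_num) (by norm_num))
  obtain ⟨T8, hT8⟩ := thr (ev_pow (Real.pi / 4 * K2 * (10000 * 3) * C0 ^ (|(-(9 / 800) : ℝ)| / 2))
    (1 / 4) (1 + 1 / 5000 + -(9 / 800) / 2) (1 - 1 / 5000) (by norm_num) (by norm_num))
  obtain ⟨K, hK⟩ : ∃ K : ℝ, K = max (max (max (max K1 K2) (max K3 KI)) (max (max C0 3)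
    (max T1 T2))) (max (max (max T3 T4) (max T5 T6)) (max T7 T8)) := ⟨_, rfl⟩
  have hKge : K1 ≤ K ∧ K2 ≤ K ∧ K3 ≤ K ∧ KI ≤ K ∧ C0 ≤ K ∧ 3 ≤ K ∧ T1 ≤ K ∧ T2 ≤ K ∧ T3 ≤ K
      ∧ T4 ≤ K ∧ T5 ≤ K ∧ T6 ≤ K ∧ T7 ≤ K ∧ T8 ≤ K := by
    rw [hK]
    simp only [le_max_iff]
    refine ⟨?_, ?_, ?_, ?_, ?_, ?_, ?_, ?_, ?_, ?_, ?_, ?_, ?_, ?_⟩ <;> simp
  obtain ⟨k1, k2, k3, k4, k5, k6, k7, k8, k9, k10, k11, k12, k13, k14⟩ := hKge
  refine ⟨1 / 5000, K, by norm_num, by norm_num, by linarith, ?_⟩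
  intro px x py y ps s pr r a1 a2 a3 hKx
  have hx3 : 3 ≤ x := by exact_mod_cast k6.trans hKx
  have hCx : C0 ≤ x := k5.trans hKx
  have hxy := adj_le a1 (by omega) hCx
  have hy3 : 3 ≤ y := by exact_mod_cast (k6.trans (hKx.trans hxy))
  have hys := adj_le a2 (by omega) (hCx.trans hxy)
  have hs3 : 3 ≤ s := by exact_mod_cast (k6.trans (hKx.trans (hxy.trans hys)))
  have hsr := adj_le a3 (by omega) (hCx.trans (hxy.trans hys))
  have hr3 : 3 ≤ r := by exact_mod_cast (k6.trans (hKx.trans (hxy.trans (hys.trans hsr))))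
  have : NeZero s := ⟨by omega⟩
  have : NeZero r := ⟨by omega⟩
  have hX : (0 : ℝ) < x := by exact_mod_cast (by omega : 0 < x)
  have hY : (0 : ℝ) < y := by exact_mod_cast (by omega : 0 < y)
  have hS : (0 : ℝ) < s := by exact_mod_cast (by omega : 0 < s)
  have hR : (0 : ℝ) < r := by exact_mod_cast (by omega : 0 < r)
  have hS1 : (1 : ℝ) ≤ s := by exact_mod_cast (by omega : 1 ≤ s)
  have hR1 : (1 : ℝ) ≤ r := by exact_mod_cast (by omega : 1 ≤ r)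
  have hKS : K ≤ s := hKx.trans (hxy.trans hys)
  have hKR : K ≤ r := hKS.trans hsr
  have dS := hC5 ps s a3.cop hs3
  have dR := hC5 pr r a3.cop' hr3
  obtain ⟨cR, bR, -, pR⟩ := hC6 pr r a3.cop' hr3
  obtain ⟨cS, bS, sS, pS⟩ := hC6 ps s a3.cop hs3
  obtain ⟨mu, mu0, mu1, mu2⟩ := hE3 ps s a3.cop hs3
  obtain ⟨⟨u, ev, hu⟩, -⟩ := hB4 r (fb pr r (1 / (2 * r)) Complex.I)
  change IsEB (Fi pr r (1 / (2 * r)) Complex.I) u ev at hu
  have hprod : ∀ z : ℂ, ∏ i, (z - ev i) = aeval z (Dl pr r) := by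
    intro z
    have h := hC1 pr r (1 / (2 * r)) Complex.I (Fin r) u ev a3.cop' hr3 (by simp) hu z
    rw [h, tt_half r (by omega)]
    simp
  obtain ⟨e1, e2, e3⟩ := enum dR cR ev hprod
  have hder : ∀ i, (Dl pr r).derivative.eval (ev i) ≠ 0 := by
    intro i h0
    have h1 := pR (ev i) (e1 i)
    unfold om at h1
    rw [h0] at h1
    simp at h1
  have hend : ∀ i, om (Dl pr r) (ev i) ≤ Real.pi / (2 * r) * (‖u i 0‖ * ‖u i (-1)‖) :=
    fun i => om_le_ends hC3 pr r u ev a3.cop' hr3 hu i (hder i)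
  -- the sets
  obtain ⟨mm, hmm⟩ : ∃ mm : Fin r → ℝ, mm = fun i =>
    ‖(cut s 1 3 (ext r Complex.I (u i)) : Rg (16 * s))‖ ^ 2 := ⟨_, rfl⟩
  have hmm0 : ∀ i, 0 ≤ mm i := by intro i; rw [hmm]; positivity
  have hmsum : ∑ i, mm i ≤ 10 * s := by
    have h := (hH9 s 1 3 r (16 * s) Complex.I (Fin r) u 0 (by omega) le_rfl (by simp)).1
    simp only [zero_add] at h
    rw [hmm]
    refine h.trans (le_of_eq ?_)
    push_cast
    ring
  obtain ⟨Nb, hNb⟩ : ∃ Nb : ℝ → Finset (Fin r), Nb = fun e => Finset.univ.filter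
    (fun i => |ev i - e| ≤ 8 * (s : ℝ) ^ (-(1 / 400) : ℝ) * om (Dl ps s) e) := ⟨_, rfl⟩
  obtain ⟨W, hW⟩ : ∃ W : Finset (Fin r), W = Finset.univ.filter
    (fun i => (r : ℝ) ^ (-2 - 1 / 5000 : ℝ) ≤ om (Dl pr r) (ev i)) := ⟨_, rfl⟩
  obtain ⟨W1, hW1⟩ : ∃ W1 : Finset (Fin r), W1 = Finset.univ.filter
    (fun i => (s : ℝ) ^ (-1 + 1 / 400 : ℝ) ≤ mm i) := ⟨_, rfl⟩
  obtain ⟨W2, hW2⟩ : ∃ W2 : Finset (Fin r), W2 = Finset.univ.filter
    (fun i => ¬ NoHeavy px x (ev i) ((x : ℝ) ^ (-(5 / 3) : ℝ))) := ⟨_, rfl⟩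
  obtain ⟨G, hG⟩ : ∃ G : Finset ℝ, G = (rts (Dl ps s)).filter
    (fun e => (s : ℝ) ^ (-2 - 1 / 80 : ℝ) ≤ om (Dl ps s) e ∧
      NoHeavy px x e ((x : ℝ) ^ (-(7 / 4) : ℝ))) := ⟨_, rfl⟩
  obtain ⟨Ga, hGa⟩ : ∃ Ga : Finset ℝ, Ga = G.filter
    (fun e => ∀ d, (s : ℝ) ^ (-(1 / 800) : ℝ) * om (Dl ps s) e ≤ d →
      bm (Dl ps s) mu e d ≤ (s : ℝ) ^ (1 + 1 / 80 : ℝ) * d) := ⟨_, rfl⟩
  obtain ⟨Gb, hGb⟩ : ∃ Gb : Finset ℝ, Gb = G.filter
    (fun e => ¬ ∀ d, (s : ℝ) ^ (-(1 / 800) : ℝ) * om (Dl ps s) e ≤ d →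
      bm (Dl ps s) mu e d ≤ (s : ℝ) ^ (1 + 1 / 80 : ℝ) * d) := ⟨_, rfl⟩
  -- the covering
  have hS400 : (8 : ℝ) ≤ (s : ℝ) ^ (1 / 400 : ℝ) := hT1 s (k7.trans hKS)
  have hcov : W ⊆ W1 ∪ W2 ∪ Ga.biUnion Nb ∪
      Gb.biUnion (fun e => (Nb e).filter (fun i => i ∈ W)) := by
    intro i hi
    have hi' := hi
    rw [hW, Finset.mem_filter] at hi'
    have hwide := hi'.2
    by_cases i1 : i ∈ W1
    · simp [i1]
    by_cases i2 : i ∈ W2
    · simp [i2]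
    have j1 : mm i < (s : ℝ) ^ (-1 + 1 / 400 : ℝ) := by
      rw [hW1] at i1; simpa using i1
    have j2 : NoHeavy px x (ev i) ((x : ℝ) ^ (-(5 / 3) : ℝ)) := by
      rw [hW2] at i2; simpa using i2
    have hx1 : (1 : ℝ) ≤ x := by exact_mod_cast (by omega : 1 ≤ x)
    have j3 : NoHeavy px x (ev i) ((x : ℝ) ^ (-(7 / 4) : ℝ)) := by
      intro e he hh
      exact lt_of_le_of_lt (Real.rpow_le_rpow_of_exponent_le hx1 (by norm_num)) (j2 e he hh)
    by_cases hl : ∀ d, (s : ℝ) ^ (-2 - 1 / 80 : ℝ) ≤ d →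
        bm (Dl ps s) (om (Dl ps s)) (ev i) d ≤ (s : ℝ) ^ (1 / 400 : ℝ) * d / 2
    · exfalso
      have h1 := HM1 px x py y ps s pr r (Fin r) u ev a1 a2 a3 (k1.trans hKx) hu i j3 hl
      have h2 : ‖u i 0‖ * ‖u i (-1)‖ ≤ K1 * (s : ℝ) ^ (-1 + 1 / 400 - 1 / 80 : ℝ)
          * (s : ℝ) ^ (-1 + 1 / 400 : ℝ) := by
        refine h1.trans ?_
        have : ‖(cut s 1 3 (ext r Complex.I (u i)) : Rg (16 * s))‖ ^ 2 = mm i := by rw [hmm]
        rw [this]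
        exact mul_le_mul_of_nonneg_left j1.le (by positivity)
      have h3 : K1 * (s : ℝ) ^ (-1 + 1 / 400 - 1 / 80 : ℝ) * (s : ℝ) ^ (-1 + 1 / 400 : ℝ)
          = K1 * (s : ℝ) ^ (-2 - 3 / 400 : ℝ) := by
        rw [mul_assoc, ← Real.rpow_add hS]
        congr 2
        norm_num
      rw [h3] at h2
      have h4 := pw C0 r s (-2 - 3 / 400) hC0 hR hS a3.low a3.upp
      have h5 := hwide.trans (hend i)
      have h6 := hT2 r (k8.trans hKR)
      have h7 : (r : ℝ) ^ (-2 - 1 / 5000 : ℝ) = (r : ℝ) ^ (-1 - 1 / 5000 : ℝ) / r := by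
        rw [show (-2 - 1 / 5000 : ℝ) = (-1 - 1 / 5000) - 1 by norm_num, Real.rpow_sub_one hR.ne']
      rw [h7, div_le_iff₀ hR] at h5
      have h8 : Real.pi / (2 * r) * (‖u i 0‖ * ‖u i (-1)‖) * r
          = Real.pi / 2 * (‖u i 0‖ * ‖u i (-1)‖) := by
        field_simp
      rw [h8] at h5
      have h9 : Real.pi / 2 * (‖u i 0‖ * ‖u i (-1)‖)
          ≤ Real.pi / 2 * K1 * C0 ^ (|(-2 - 3 / 400 : ℝ)| / 2) * (r : ℝ) ^ (-1 - 3 / 800 : ℝ) := by
        have h10 : (r : ℝ) ^ ((-2 - 3 / 400 : ℝ) / 2) = (r : ℝ) ^ (-1 - 3 / 800 : ℝ) := by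
          norm_num
        rw [h10] at h4
        calc Real.pi / 2 * (‖u i 0‖ * ‖u i (-1)‖)
            ≤ Real.pi / 2 * (K1 * (s : ℝ) ^ (-2 - 3 / 400 : ℝ)) := by gcongr
          _ ≤ Real.pi / 2 * (K1 * (C0 ^ (|(-2 - 3 / 400 : ℝ)| / 2)
              * (r : ℝ) ^ (-1 - 3 / 800 : ℝ))) := by gcongr
          _ = _ := by ring
      have h11 : (0 : ℝ) < (r : ℝ) ^ (-1 - 1 / 5000 : ℝ) := by positivity
      linarith
    · push Not at hl
      obtain ⟨d, hd, hb⟩ := hl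
      have hd0 : 0 < d := lt_of_lt_of_le (by positivity) hd
      obtain ⟨e, he, hed, heo⟩ := heavy_om hD9 s _ dS (by omega) (ev i) d
        ((s : ℝ) ^ (1 / 400 : ℝ)) hd0 hS400 hb
      have hpos := pS e he
      have hd1 : d ≤ 8 * (s : ℝ) ^ (-(1 / 400) : ℝ) * om (Dl ps s) e := by
        rw [Real.rpow_neg hS.le]
        have h400 : (0 : ℝ) < (s : ℝ) ^ (1 / 400 : ℝ) := by positivity
        rw [mul_assoc, ← mul_le_mul_iff_right₀ h400]
        have : (s : ℝ) ^ (1 / 400 : ℝ) * (8 * (((s : ℝ) ^ (1 / 400 : ℝ))⁻¹ * om (Dl ps s) e))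
            = 8 * om (Dl ps s) e := by
          field_simp
        rw [this]
        linarith
      have hd2 : d ≤ om (Dl ps s) e := by
        have : (8 : ℝ) * d ≤ (s : ℝ) ^ (1 / 400 : ℝ) * d :=
          mul_le_mul_of_nonneg_right hS400 hd0.le
        linarith
      have hmemNb : i ∈ Nb e := by
        rw [hNb]
        simp only [Finset.mem_filter, Finset.mem_univ, true_and]
        exact hed.trans hd1
      have hom : om (Dl ps s) e ≤ 1 / s := by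
        rw [← sS]
        exact Finset.single_le_sum (f := fun e => om (Dl ps s) e)
          (fun e' he' => (pS e' he').le) he
      have hNH : NoHeavy px x e ((x : ℝ) ^ (-(7 / 4) : ℝ)) := by
        intro e' he' hh
        have h1 := j2 e' he' hh
        have h2 : d ≤ 8 * C0 ^ 3 * (x : ℝ) ^ (-4 : ℝ) := by
          have h3 : d ≤ 1 / s := hd2.trans hom
          have h4 : (x : ℝ) ^ 4 ≤ C0 ^ 3 * s := by
            have h5 : ((x : ℝ) ^ 2) ^ 2 ≤ (C0 * y) ^ 2 :=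
              pow_le_pow_left₀ (by positivity) a1.low 2
            have h6 : C0 ^ 2 * (y : ℝ) ^ 2 ≤ C0 ^ 2 * (C0 * s) :=
              mul_le_mul_of_nonneg_left a2.low (by positivity)
            calc (x : ℝ) ^ 4 = ((x : ℝ) ^ 2) ^ 2 := by ring
              _ ≤ (C0 * y) ^ 2 := h5
              _ = C0 ^ 2 * (y : ℝ) ^ 2 := by ring
              _ ≤ _ := h6
              _ = _ := by ring
          have h7 : 1 / (s : ℝ) ≤ C0 ^ 3 * (x : ℝ) ^ (-4 : ℝ) := by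
            rw [Real.rpow_neg hX.le, show ((x : ℝ) ^ (4 : ℝ)) = (x : ℝ) ^ (4 : ℕ) by
              exact_mod_cast Real.rpow_natCast (x : ℝ) 4]
            rw [div_le_iff₀ hS, ← div_eq_mul_inv, div_mul_eq_mul_div, le_div_iff₀ (by positivity)]
            linarith
          have h8 : 0 ≤ C0 ^ 3 * (x : ℝ) ^ (-4 : ℝ) := by positivity
          linarith
        have h3 := hT3 x (k9.trans hKx)
        have h4 := hT4 x (k10.trans hKx)
        have h5 : |ev i - e'| ≤ |ev i - e| + |e - e'| := by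
          have := abs_add_le (ev i - e) (e - e')
          simpa using this
        rw [one_mul] at h4
        linarith
      have hG' : e ∈ G := by
        rw [hG, Finset.mem_filter]
        exact ⟨he, hd.trans hd2, hNH⟩
      by_cases hlm : ∀ d, (s : ℝ) ^ (-(1 / 800) : ℝ) * om (Dl ps s) e ≤ d →
          bm (Dl ps s) mu e d ≤ (s : ℝ) ^ (1 + 1 / 80 : ℝ) * d
      · have : e ∈ Ga := by rw [hGa, Finset.mem_filter]; exact ⟨hG', hlm⟩
        rw [Finset.mem_union, Finset.mem_union]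
        left; right
        exact Finset.mem_biUnion.2 ⟨e, this, hmemNb⟩
      · have : e ∈ Gb := by rw [hGb, Finset.mem_filter]; exact ⟨hG', hlm⟩
        rw [Finset.mem_union]
        right
        exact Finset.mem_biUnion.2 ⟨e, this, Finset.mem_filter.2 ⟨hmemNb, hi⟩⟩
  -- the four counts
  have c1 : (W1.card : ℝ) ≤ 1 / 4 * (r : ℝ) ^ (1 - 1 / 5000 : ℝ) := by
    have h1 : (W1.card : ℝ) * (s : ℝ) ^ (-1 + 1 / 400 : ℝ) ≤ 10 * s := by
      calc (W1.card : ℝ) * (s : ℝ) ^ (-1 + 1 / 400 : ℝ)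
          = ∑ i ∈ W1, (s : ℝ) ^ (-1 + 1 / 400 : ℝ) := by rw [Finset.sum_const, nsmul_eq_mul]
        _ ≤ ∑ i ∈ W1, mm i := by
            apply Finset.sum_le_sum
            intro i hi
            rw [hW1, Finset.mem_filter] at hi
            exact hi.2
        _ ≤ ∑ i, mm i := Finset.sum_le_sum_of_subset_of_nonneg (Finset.subset_univ _)
            (fun i _ _ => hmm0 i)
        _ ≤ 10 * s := hmsum
    have h2 : (W1.card : ℝ) ≤ 10 * (s : ℝ) ^ (2 - 1 / 400 : ℝ) := by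
      have h3 : (W1.card : ℝ) = (W1.card : ℝ) * (s : ℝ) ^ (-1 + 1 / 400 : ℝ)
          * (s : ℝ) ^ (1 - 1 / 400 : ℝ) := by
        rw [mul_assoc, ← Real.rpow_add hS]
        norm_num
      rw [h3]
      calc (W1.card : ℝ) * (s : ℝ) ^ (-1 + 1 / 400 : ℝ) * (s : ℝ) ^ (1 - 1 / 400 : ℝ)
          ≤ 10 * s * (s : ℝ) ^ (1 - 1 / 400 : ℝ) := by gcongr
        _ = 10 * (s : ℝ) ^ (2 - 1 / 400 : ℝ) := by
          rw [mul_assoc]
          congr 1
          rw [show (2 - 1 / 400 : ℝ) = 1 + (1 - 1 / 400) by norm_num, Real.rpow_add hS,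
            Real.rpow_one]
    have h4 := pw C0 r s (2 - 1 / 400) hC0 hR hS a3.low a3.upp
    have h5 := hT5 r (k11.trans hKR)
    calc (W1.card : ℝ) ≤ 10 * (s : ℝ) ^ (2 - 1 / 400 : ℝ) := h2
      _ ≤ 10 * (C0 ^ (|(2 - 1 / 400 : ℝ)| / 2) * (r : ℝ) ^ ((2 - 1 / 400 : ℝ) / 2)) := by gcongr
      _ = 10 * C0 ^ (|(2 - 1 / 400 : ℝ)| / 2) * (r : ℝ) ^ ((2 - 1 / 400 : ℝ) / 2) := by ring
      _ ≤ _ := h5
  have c2 : (W2.card : ℝ) ≤ 1 / 4 * (r : ℝ) ^ (1 - 1 / 5000 : ℝ) := by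
    have h1 := HI2 px x pr r a1.cop a3.cop' (k4.trans hKx) hr3 (by
      have d1 := adj_dist a1 (by omega) (by omega)
      have d2 := adj_dist a2 (by omega) (by omega)
      have d3 := adj_dist a3 (by omega) (by omega)
      have t1 : |(px / x : ℝ) - pr / r| ≤ |(px / x : ℝ) - py / y| + |(py / y : ℝ) - ps / s|
          + |(ps / s : ℝ) - pr / r| := by
        have := abs_add_three ((px / x : ℝ) - py / y) (py / y - ps / s) (ps / s - pr / r)
        simpa using this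
      have b : ∀ a b : ℝ, (x : ℝ) ≤ a → (y : ℝ) ≤ b → 1 / (a * b) ≤ C0 / (x : ℝ) ^ 3 := by
        intro a b ha hb
        rw [div_le_div_iff₀ (mul_pos (hX.trans_le ha) (hY.trans_le hb)) (by positivity), one_mul]
        calc (x : ℝ) ^ 3 = x * (x : ℝ) ^ 2 := by ring
          _ ≤ x * (C0 * y) := by
            apply mul_le_mul_of_nonneg_left a1.low hX.le
          _ = C0 * (x * y) := by ring
          _ ≤ C0 * (a * b) := by
            apply mul_le_mul_of_nonneg_left _ hC00.le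
            exact mul_le_mul ha hb hY.le (hX.le.trans ha)
      have q1 := b x y le_rfl le_rfl
      have q2 := b y s hxy hys
      have q3 := b s r (hxy.trans hys) (hys.trans hsr)
      rw [d1, d2, d3] at t1
      have : 3 * C0 / (x : ℝ) ^ 3 = C0 / (x : ℝ) ^ 3 + C0 / (x : ℝ) ^ 3 + C0 / (x : ℝ) ^ 3 := by
        ring
      rw [this]
      linarith) (by
        have := a1.low
        have h2 : C0 * (y : ℝ) ≤ C0 * r := by
          apply mul_le_mul_of_nonneg_left (hys.trans hsr) hC00.le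
        nlinarith)
    have h2 : Nat.card {E // E ∈ rts (Dl pr r) ∧ ¬ NoHeavy px x E ((x : ℝ) ^ (-(5 / 3) : ℝ))}
        = ((rts (Dl pr r)).filter
          (fun E => ¬ NoHeavy px x E ((x : ℝ) ^ (-(5 / 3) : ℝ)))).card :=
      Nat.subtype_card _ (by intro E; simp)
    rw [h2] at h1
    have h3 : W2.card ≤ ((rts (Dl pr r)).filter
          (fun E => ¬ NoHeavy px x E ((x : ℝ) ^ (-(5 / 3) : ℝ)))).card := by
      rw [← Finset.card_image_of_injective W2 e3]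
      apply Finset.card_le_card
      intro E hE
      rw [Finset.mem_image] at hE
      obtain ⟨i, hi, rfl⟩ := hE
      rw [hW2, Finset.mem_filter] at hi
      exact Finset.mem_filter.2 ⟨e1 i, hi.2⟩
    have h4 : (W2.card : ℝ) ≤ KI * r * (x : ℝ) ^ (-(3 / 4) : ℝ) :=
      le_trans (by exact_mod_cast h3) h1
    have p1 := pw C0 y x (-(3 / 4)) hC0 hY hX a1.low a1.upp
    have p2 := pw C0 s y (-(3 / 4) / 2) hC0 hS hY a2.low a2.upp
    have p3 := pw C0 r s (-(3 / 4) / 2 / 2) hC0 hR hS a3.low a3.upp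
    have h5 := hT6 r (k12.trans hKR)
    calc (W2.card : ℝ) ≤ KI * r * (x : ℝ) ^ (-(3 / 4) : ℝ) := h4
      _ ≤ KI * r * (C0 ^ (|(-(3 / 4) : ℝ)| / 2) * (C0 ^ (|(-(3 / 4) / 2 : ℝ)| / 2)
          * (C0 ^ (|(-(3 / 4) / 2 / 2 : ℝ)| / 2) * (r : ℝ) ^ (-(3 / 4) / 2 / 2 / 2 : ℝ)))) := by
          gcongr
          refine p1.trans ?_
          gcongr
          refine p2.trans ?_
          gcongr
      _ = (KI * (C0 ^ (|(-(3 / 4) : ℝ)| / 2)
          * (C0 ^ (|(-(3 / 4) / 2 : ℝ)| / 2) * C0 ^ (|(-(3 / 4) / 2 / 2 : ℝ)| / 2))))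
          * (r : ℝ) ^ (1 + -(3 / 4) / 2 / 2 / 2 : ℝ) := by
          rw [Real.rpow_add hR, Real.rpow_one]
          ring
      _ ≤ _ := h5
  have c3 : ((Ga.biUnion Nb).card : ℝ) ≤ 1 / 4 * (r : ℝ) ^ (1 - 1 / 5000 : ℝ) := by
    have h1 : ∀ e ∈ Ga, ((Nb e).card : ℝ) ≤ K3 * (s : ℝ) ^ (1 - 1 / 1600 : ℝ) := by
      intro e he
      rw [hGa, Finset.mem_filter, hG, Finset.mem_filter] at he
      have h2 := HM3 px x py y ps s pr r (Fin r) u ev mu a1 a2 a3 (k3.trans hKx) hu mu0 mu1 e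
        he.1.1 he.1.2.1 he.1.2.2 he.2
      rw [Nat.subtype_card (Nb e) (by intro i; rw [hNb]; simp)] at h2
      exact h2
    have h2 : ((Ga.biUnion Nb).card : ℝ) ≤ ∑ e ∈ Ga, ((Nb e).card : ℝ) := by
      exact_mod_cast Finset.card_biUnion_le
    have h3 : (Ga.card : ℝ) ≤ s := by
      have h4 : Ga.card ≤ (rts (Dl ps s)).card := by
        rw [hGa, hG]
        exact (Finset.card_le_card (Finset.filter_subset _ _)).trans
          (Finset.card_le_card (Finset.filter_subset _ _))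
      rw [cS] at h4
      exact_mod_cast h4
    have h4 := pw C0 r s (2 - 1 / 1600) hC0 hR hS a3.low a3.upp
    have h5 := hT7 r (k13.trans hKR)
    calc ((Ga.biUnion Nb).card : ℝ) ≤ ∑ e ∈ Ga, ((Nb e).card : ℝ) := h2
      _ ≤ ∑ e ∈ Ga, K3 * (s : ℝ) ^ (1 - 1 / 1600 : ℝ) := Finset.sum_le_sum h1
      _ = Ga.card * (K3 * (s : ℝ) ^ (1 - 1 / 1600 : ℝ)) := by
          rw [Finset.sum_const, nsmul_eq_mul]
      _ ≤ s * (K3 * (s : ℝ) ^ (1 - 1 / 1600 : ℝ)) := by gcongr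
      _ = K3 * (s : ℝ) ^ (2 - 1 / 1600 : ℝ) := by
          rw [show (2 - 1 / 1600 : ℝ) = 1 + (1 - 1 / 1600) by norm_num, Real.rpow_add hS,
            Real.rpow_one]
          ring
      _ ≤ K3 * (C0 ^ (|(2 - 1 / 1600 : ℝ)| / 2) * (r : ℝ) ^ ((2 - 1 / 1600 : ℝ) / 2)) := by
          gcongr
      _ = K3 * C0 ^ (|(2 - 1 / 1600 : ℝ)| / 2) * (r : ℝ) ^ ((2 - 1 / 1600 : ℝ) / 2) := by ring
      _ ≤ _ := h5
  have c4 : ((Gb.biUnion (fun e => (Nb e).filter (fun i => i ∈ W))).card : ℝ)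
      ≤ 1 / 4 * (r : ℝ) ^ (1 - 1 / 5000 : ℝ) := by
    have hGbmem : ∀ e ∈ Gb, e ∈ rts (Dl ps s) ∧ (s : ℝ) ^ (-2 - 1 / 80 : ℝ) ≤ om (Dl ps s) e ∧
        NoHeavy px x e ((x : ℝ) ^ (-(7 / 4) : ℝ)) := by
      intro e he
      rw [hGb, Finset.mem_filter, hG, Finset.mem_filter] at he
      exact ⟨he.1.1, he.1.2.1, he.1.2.2⟩
    have h1 : ∀ e ∈ Gb, (((Nb e).filter (fun i => i ∈ W)).card : ℝ)
        ≤ Real.pi / 4 * K2 * s * (r : ℝ) ^ (1 + 1 / 5000 : ℝ) * om (Dl ps s) e := by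
      intro e he
      obtain ⟨g1, g2, g3⟩ := hGbmem e he
      have h2 := HM2 px x py y ps s pr r (Fin r) u ev a1 a2 a3 (k2.trans hKx) hu e g1 g2 g3
      have h3 : (((Nb e).filter (fun i => i ∈ W)).card : ℝ) * (r : ℝ) ^ (-2 - 1 / 5000 : ℝ)
          ≤ Real.pi / (4 * r) * (K2 * s * om (Dl ps s) e) := by
        calc (((Nb e).filter (fun i => i ∈ W)).card : ℝ) * (r : ℝ) ^ (-2 - 1 / 5000 : ℝ)
            = ∑ i ∈ (Nb e).filter (fun i => i ∈ W), (r : ℝ) ^ (-2 - 1 / 5000 : ℝ) := by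
              rw [Finset.sum_const, nsmul_eq_mul]
          _ ≤ ∑ i ∈ (Nb e).filter (fun i => i ∈ W),
                Real.pi / (4 * r) * (‖u i 0‖ ^ 2 + ‖u i (-1)‖ ^ 2) := by
              apply Finset.sum_le_sum
              intro i hi
              rw [Finset.mem_filter] at hi
              have h4 := hi.2
              rw [hW, Finset.mem_filter] at h4
              refine h4.2.trans ((hend i).trans ?_)
              have h5 : ‖u i 0‖ * ‖u i (-1)‖ ≤ (‖u i 0‖ ^ 2 + ‖u i (-1)‖ ^ 2) / 2 := by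
                nlinarith [sq_nonneg (‖u i 0‖ - ‖u i (-1)‖)]
              calc Real.pi / (2 * r) * (‖u i 0‖ * ‖u i (-1)‖)
                  ≤ Real.pi / (2 * r) * ((‖u i 0‖ ^ 2 + ‖u i (-1)‖ ^ 2) / 2) := by gcongr
                _ = _ := by field_simp; ring
          _ ≤ ∑ i ∈ Nb e, Real.pi / (4 * r) * (‖u i 0‖ ^ 2 + ‖u i (-1)‖ ^ 2) :=
              Finset.sum_le_sum_of_subset_of_nonneg (Finset.filter_subset _ _)
                (fun i _ _ => by positivity)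
          _ = Real.pi / (4 * r) * ∑ i ∈ Nb e, (‖u i 0‖ ^ 2 + ‖u i (-1)‖ ^ 2) := by
              rw [Finset.mul_sum]
          _ ≤ Real.pi / (4 * r) * (K2 * s * om (Dl ps s) e) := by
              apply mul_le_mul_of_nonneg_left _ (by positivity)
              rw [hNb]
              exact h2
      have h6 : (((Nb e).filter (fun i => i ∈ W)).card : ℝ)
          = (((Nb e).filter (fun i => i ∈ W)).card : ℝ) * (r : ℝ) ^ (-2 - 1 / 5000 : ℝ)
            * (r : ℝ) ^ (2 + 1 / 5000 : ℝ) := by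
        rw [mul_assoc, ← Real.rpow_add hR]
        norm_num
      rw [h6]
      calc _ ≤ Real.pi / (4 * r) * (K2 * s * om (Dl ps s) e) * (r : ℝ) ^ (2 + 1 / 5000 : ℝ) := by
            gcongr
        _ = _ := by
          rw [show (2 + 1 / 5000 : ℝ) = 1 + (1 + 1 / 5000) by norm_num, Real.rpow_add hR,
            Real.rpow_one]
          field_simp
    have h2 : ∑ e ∈ Gb, om (Dl ps s) e ≤ 10000 * (1 + Real.log (1 / ((s : ℝ) ^ (-(1 / 800) : ℝ)
        * (s : ℝ) ^ (-2 - 1 / 80 : ℝ)))) / ((s : ℝ) ^ (-(1 / 800) : ℝ)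
          * (s : ℝ) ^ (1 + 1 / 80 : ℝ)) := by
      apply hI5 s (Dl ps s) mu ((s : ℝ) ^ (1 + 1 / 80 : ℝ)) ((s : ℝ) ^ (-(1 / 800) : ℝ))
        ((s : ℝ) ^ (-2 - 1 / 80 : ℝ)) dS (by omega) mu0 bS mu2
        (Real.one_le_rpow hS1 (by norm_num)) (by positivity)
        (Real.rpow_le_one_of_one_le_of_nonpos hS1 (by norm_num)) (by positivity)
        (Real.rpow_le_one_of_one_le_of_nonpos hS1 (by norm_num))
      intro e he
      obtain ⟨g1, g2, g3⟩ := hGbmem e he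
      rw [hGb, Finset.mem_filter] at he
      have g4 := he.2
      push Not at g4
      exact ⟨g1, g2, g4⟩
    have h3 : Real.log (1 / ((s : ℝ) ^ (-(1 / 800) : ℝ) * (s : ℝ) ^ (-2 - 1 / 80 : ℝ)))
        ≤ 3 * Real.log r := by
      rw [← Real.rpow_add hS, one_div, ← Real.rpow_neg hS.le, Real.log_rpow hS]
      have h4 : 0 ≤ Real.log s := Real.log_nonneg hS1
      have h5 : Real.log s ≤ Real.log r := Real.log_le_log hS hsr
      nlinarith
    have h4 : (s : ℝ) / ((s : ℝ) ^ (-(1 / 800) : ℝ) * (s : ℝ) ^ (1 + 1 / 80 : ℝ))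
        = (s : ℝ) ^ (-(9 / 800) : ℝ) := by
      rw [← Real.rpow_add hS]
      nth_rewrite 1 [← Real.rpow_one (s : ℝ)]
      rw [← Real.rpow_sub hS]
      norm_num
    have h5 := pw C0 r s (-(9 / 800)) hC0 hR hS a3.low a3.upp
    have h6 := hT8 r (k14.trans hKR)
    have hlog : 0 ≤ Real.log r := Real.log_nonneg hR1
    calc ((Gb.biUnion (fun e => (Nb e).filter (fun i => i ∈ W))).card : ℝ)
        ≤ ∑ e ∈ Gb, (((Nb e).filter (fun i => i ∈ W)).card : ℝ) := by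
          exact_mod_cast Finset.card_biUnion_le
      _ ≤ ∑ e ∈ Gb, Real.pi / 4 * K2 * s * (r : ℝ) ^ (1 + 1 / 5000 : ℝ) * om (Dl ps s) e :=
          Finset.sum_le_sum h1
      _ = Real.pi / 4 * K2 * s * (r : ℝ) ^ (1 + 1 / 5000 : ℝ) * ∑ e ∈ Gb, om (Dl ps s) e := by
          rw [Finset.mul_sum]
      _ ≤ Real.pi / 4 * K2 * s * (r : ℝ) ^ (1 + 1 / 5000 : ℝ)
          * (10000 * (3 * (1 + Real.log r)) / ((s : ℝ) ^ (-(1 / 800) : ℝ)
          * (s : ℝ) ^ (1 + 1 / 80 : ℝ))) := by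
          apply mul_le_mul_of_nonneg_left _ (by positivity)
          refine h2.trans ?_
          gcongr
          linarith
      _ = Real.pi / 4 * K2 * (10000 * 3) * (1 + Real.log r) * (r : ℝ) ^ (1 + 1 / 5000 : ℝ)
          * ((s : ℝ) / ((s : ℝ) ^ (-(1 / 800) : ℝ) * (s : ℝ) ^ (1 + 1 / 80 : ℝ))) := by
          ring
      _ = Real.pi / 4 * K2 * (10000 * 3) * (1 + Real.log r) * (r : ℝ) ^ (1 + 1 / 5000 : ℝ)
          * (s : ℝ) ^ (-(9 / 800) : ℝ) := by rw [h4]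
      _ ≤ Real.pi / 4 * K2 * (10000 * 3) * (1 + Real.log r) * (r : ℝ) ^ (1 + 1 / 5000 : ℝ)
          * (C0 ^ (|(-(9 / 800) : ℝ)| / 2) * (r : ℝ) ^ (-(9 / 800) / 2 : ℝ)) := by
          gcongr
      _ = Real.pi / 4 * K2 * (10000 * 3) * C0 ^ (|(-(9 / 800) : ℝ)| / 2) * (1 + Real.log r)
          * (r : ℝ) ^ (1 + 1 / 5000 + -(9 / 800) / 2 : ℝ) := by
          have hk : (r : ℝ) ^ (1 + 1 / 5000 + -(9 / 800) / 2 : ℝ)
              = (r : ℝ) ^ (1 + 1 / 5000 : ℝ) * (r : ℝ) ^ (-(9 / 800) / 2 : ℝ) :=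
            Real.rpow_add hR _ _
          rw [hk]
          ring
      _ ≤ _ := h6
  -- conclusion
  have hfin : (((rts (Dl pr r)).filter
      (fun e => (r : ℝ) ^ (-2 - 1 / 5000 : ℝ) ≤ om (Dl pr r) e)).card) ≤ W.card := by
    rw [← Finset.card_image_of_injective W e3]
    apply Finset.card_le_card
    intro e he
    rw [Finset.mem_filter] at he
    obtain ⟨i, rfl⟩ := e2 e he.1
    rw [Finset.mem_image]
    exact ⟨i, by rw [hW]; simpa using he.2, rfl⟩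
  have hWc : W.card ≤ W1.card + W2.card + (Ga.biUnion Nb).card
      + (Gb.biUnion (fun e => (Nb e).filter (fun i => i ∈ W))).card := by
    refine (Finset.card_le_card hcov).trans ?_
    refine (Finset.card_union_le _ _).trans ?_
    gcongr
    refine (Finset.card_union_le _ _).trans ?_
    gcongr
    exact Finset.card_union_le _ _
  have hWc' : (W.card : ℝ) ≤ W1.card + W2.card + (Ga.biUnion Nb).card
      + (Gb.biUnion (fun e => (Nb e).filter (fun i => i ∈ W))).card := by exact_mod_cast hWc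
  calc _ ≤ (W.card : ℝ) := by exact_mod_cast hfin
    _ ≤ _ := by linarith

end Pool.Agent.H31.AM
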