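import Pool.Agent.H31.AM.Enum

/-! helper31: MP_29bb0a_mp, module N3 (covering at the scale r^{-3}). -/

open Filter Topology Polynomial
open scoped ComplexConjugate

namespace Pool.Agent.H31.AM

open Pool.Agent.H98.AM

theorem tt_zero (r : ℕ) : tt r 0 1 = 0 := by
  unfold tt ex
  simp

theorem adj_dist_le {C0 : ℝ} {p : ℤ} {s : ℕ} {p' : ℤ} {r : ℕ} (h : Adj C0 p s p' r) (hs : 1 ≤ s)
    (hr : 1 ≤ r) : |(p / s : ℝ) - p' / r| ≤ C0 / s ^ 3 := by
  rw [adj_dist h hs hr]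
  have hs' : (0 : ℝ) < s := by exact_mod_cast hs
  have hr' : (0 : ℝ) < r := by exact_mod_cast hr
  rw [div_le_div_iff₀ (by positivity) (by positivity), one_mul]
  calc (s : ℝ) ^ 3 = s * (s : ℝ) ^ 2 := by ring
    _ ≤ s * (C0 * r) := mul_le_mul_of_nonneg_left h.low hs'.le
    _ = C0 * (s * r) := by ring

set_option maxHeartbeats 4000000 in
theorem n3 (hB4 : T_B4) (hC1 : T_C1) (hC5 : T_C5) (hC6 : T_C6) (hD6 : T_D6)
    (hE3 : T_E3) (hH6 : T_H6) (hI1 : T_I1) (hI2 : T_I2) (hI3 : T_I3) (hI4 : T_I4)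
    (hM4 : T_M4) (hN1 : T_N1) (hN2 : T_N2) : T_N3 := by
  classical
  intro C0 hC0
  obtain ⟨c0, K1, hc0, hc01, hK1, HM4⟩ := hM4 C0 hC0
  obtain ⟨K2, hK2, HN1⟩ := hN1 C0 hC0
  obtain ⟨K3, hK3, HN2⟩ := hN2 C0 hC0
  obtain ⟨K4, hK4, HI1⟩ := hI1 C0 hC0
  obtain ⟨K5, hK5, HI2⟩ := hI2 (3 * C0) (by linarith)
  obtain ⟨s0, Hs0⟩ := hH6 C0 hC0
  have hC00 : 0 < C0 := by linarith
  obtain ⟨c1, hc1⟩ : ∃ c1 : ℝ, c1 = min c0 (1 / 500) := ⟨_, rfl⟩
  have c10 : 0 < c1 := by rw [hc1]; exact lt_min hc0 (by norm_num)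
  have c1a : c1 ≤ c0 := by rw [hc1]; exact min_le_left _ _
  have c1b : c1 ≤ 1 / 500 := by rw [hc1]; exact min_le_right _ _
  obtain ⟨A, hA⟩ : ∃ A : ℝ, A = 2 * K4 * C0 + 30 * C0 + 6 := ⟨_, rfl⟩
  have hA0 : 0 < A := by rw [hA]; positivity
  -- thresholds
  obtain ⟨T1, hT1⟩ := thr (ev_pow' (2 * K3 * C0) (1 / 6) (2 - 1 / 500) (2 - c1 / 4)
    (by positivity) (by norm_num) (by linarith))
  obtain ⟨T2, hT2⟩ := thr (ev_pow' (2 * K5 * C0 * (C0 ^ (|(-(3 / 4) : ℝ)| / 2)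
    * C0 ^ (|(-(3 / 4) / 2 : ℝ)| / 2))) (1 / 6)
    (2 + -(3 / 4) / 2 / 2) (2 - c1 / 4) (by positivity) (by norm_num) (by linarith))
  obtain ⟨T3, hT3⟩ := thr (ev_pow (10000 * 3) (1 / 6) (2 - 1 / 200) (2 - c1 / 4)
    (by norm_num) (by linarith))
  obtain ⟨T4, hT4⟩ := thr (ev_pow' 27 (1 / 6) (2 - c1) (2 - c1 / 4)
    (by positivity) (by norm_num) (by linarith))
  obtain ⟨T5, hT5⟩ := thr (ev_pow' 27 (1 / 6) (2 - c1 / 2) (2 - c1 / 4)
    (by positivity) (by norm_num) (by linarith))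
  obtain ⟨T6, hT6⟩ := thr (ev_pow' A (1 / 6) (2 - c1 / 2) (2 - c1 / 4)
    hA0.le (by norm_num) (by linarith))
  obtain ⟨K, hK⟩ : ∃ K : ℝ, K = max (max (max (max K1 K2) (max K3 K5)) (max (max C0 3)
    (max (s0 : ℝ) T1))) (max (max T2 T3) (max T4 (max T5 T6))) := ⟨_, rfl⟩
  have hKge : K1 ≤ K ∧ K2 ≤ K ∧ K3 ≤ K ∧ K5 ≤ K ∧ C0 ≤ K ∧ 3 ≤ K ∧ (s0 : ℝ) ≤ K ∧ T1 ≤ K ∧
      T2 ≤ K ∧ T3 ≤ K ∧ T4 ≤ K ∧ T5 ≤ K ∧ T6 ≤ K := by
    rw [hK]
    simp only [le_max_iff]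
    refine ⟨?_, ?_, ?_, ?_, ?_, ?_, ?_, ?_, ?_, ?_, ?_, ?_, ?_⟩ <;> simp
  obtain ⟨k1, k2, k3, k4, k5, k6, k7, k8, k9, k10, k11, k12, k13⟩ := hKge
  refine ⟨c1 / 4, K, by linarith, by linarith, ?_⟩
  intro px x py y ps s pr r pq q a1 a2 a3 a4 hKx
  have hx3 : 3 ≤ x := by exact_mod_cast k6.trans hKx
  have hCx : C0 ≤ x := k5.trans hKx
  have hxy := adj_le a1 (by omega) hCx
  have hKy : K ≤ y := hKx.trans hxy
  have hy3 : 3 ≤ y := by exact_mod_cast (k6.trans hKy)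
  have hys := adj_le a2 (by omega) (k5.trans hKy)
  have hKs : K ≤ s := hKy.trans hys
  have hs3 : 3 ≤ s := by exact_mod_cast (k6.trans hKs)
  have hsr := adj_le a3 (by omega) (k5.trans hKs)
  have hKr : K ≤ r := hKs.trans hsr
  have hr3 : 3 ≤ r := by exact_mod_cast (k6.trans hKr)
  have hrq := adj_le a4 (by omega) (k5.trans hKr)
  have hKq : K ≤ q := hKr.trans hrq
  have hq3 : 3 ≤ q := by exact_mod_cast (k6.trans hKq)
  have : NeZero q := ⟨by omega⟩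
  have : NeZero r := ⟨by omega⟩
  have hY : (0 : ℝ) < y := by exact_mod_cast (by omega : 0 < y)
  have hS : (0 : ℝ) < s := by exact_mod_cast (by omega : 0 < s)
  have hR : (0 : ℝ) < r := by exact_mod_cast (by omega : 0 < r)
  have hQ : (0 : ℝ) < q := by exact_mod_cast (by omega : 0 < q)
  have hR1 : (1 : ℝ) ≤ r := by exact_mod_cast (by omega : 1 ≤ r)
  have hY1 : (1 : ℝ) ≤ y := by exact_mod_cast (by omega : 1 ≤ y)
  have dR := hC5 pr r a4.cop hr3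
  have dQ := hC5 pq q a4.cop' hq3
  obtain ⟨cR, bR, sR, pR⟩ := hC6 pr r a4.cop hr3
  obtain ⟨cQ, bQ, -, -⟩ := hC6 pq q a4.cop' hq3
  obtain ⟨mu, mu0, mu1, mu2⟩ := hE3 pr r a4.cop hr3
  obtain ⟨⟨u, ev, hu⟩, -⟩ := hB4 q (fb pq q 0 1)
  change IsEB (Fi pq q 0 1) u ev at hu
  have hprod : ∀ z : ℂ, ∏ i, (z - ev i) = aeval z (Dl pq q) := by
    intro z
    have h := hC1 pq q 0 1 (Fin q) u ev a4.cop' hq3 (by simp) hu z
    rw [h, tt_zero q]
    simp
  obtain ⟨e1, e2, e3⟩ := enum dQ cQ ev hprod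
  obtain ⟨α, β, hband, hbandcov⟩ := hD6 r (Dl pr r) dR (by omega)
  -- local phases
  have hph : ∀ a : ℕ, ∃ (o : ℕ) (θ : ℝ) (m : ℤ), o < r ∧ |θ| ≤ 1 / r ∧
      ((a + o : ℕ) : ℝ) * (pq / q) = θ + m := by
    intro a
    obtain ⟨o, θ, m, h1, h2, h3⟩ := Hs0 pr r (pq / q) 0 (by exact_mod_cast k7.trans hKr) a4.cop
      (by rw [abs_sub_comm]; exact adj_dist_le a4 (by omega) (by omega)) (a : ℤ)
    refine ⟨o, θ, m, h1, h2, ?_⟩
    rw [← h3]
    push_cast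
    ring
  choose o θ m ho hθ hm using hph
  have hphase : ∀ a, o a < r ∧ |θ a| ≤ 1 / r ∧ ((a + o a : ℕ) : ℝ) * (pq / q) = θ a + m a :=
    fun a => ⟨ho a, hθ a, hm a⟩
  obtain ⟨L, hL⟩ : ∃ L : ℕ, L = ⌈(r : ℝ) ^ (1 / 50 : ℝ)⌉₊ := ⟨_, rfl⟩
  have hL1 : 1 ≤ L := by
    rw [hL]
    exact Nat.one_le_ceil_iff.2 (by positivity)
  have : NeZero (6 * L * r) := ⟨by positivity⟩
  have hcnt2 := HN2 pr r pq q L (6 * L * r) (Fin q) u o θ m a4 (k3.trans hKr) hL1 hphase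
  -- the pieces
  obtain ⟨Bad, hBad⟩ : ∃ Bad : Finset (Fin q), Bad = Finset.univ.filter (fun i => L * r <
      ∑ a ∈ (Finset.range q).filter
      (fun a => 2 * (1 - (r : ℝ) ^ (-(1 / 250) : ℝ)) < ‖1 - ex (r * θ a)‖),
    ‖(cut r L 0 (fun k => Pool.Agent.H98.AM.ext q 1 (u i) (((a + o a : ℕ) : ℤ) + k)) :
      Rg (6 * L * r))‖ ^ 2) := ⟨_, rfl⟩
  have hBadc : (Bad.card : ℝ) ≤ K3 * q * (r : ℝ) ^ (-(1 / 500) : ℝ) := by
    rw [Nat.subtype_card Bad (by intro i; rw [hBad]; simp)] at hcnt2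
    exact hcnt2
  obtain ⟨HB, hHB⟩ : ∃ HB : Finset ℝ, HB = (rts (Dl pq q)).filter
    (fun E => ¬ NoHeavy py y E ((y : ℝ) ^ (-(5 / 3) : ℝ))) := ⟨_, rfl⟩
  have hHBc : (HB.card : ℝ) ≤ K5 * q * (y : ℝ) ^ (-(3 / 4) : ℝ) := by
    have h1 := HI2 py y pq q a2.cop a4.cop' (k4.trans hKy) hq3 (by
      have d1 := adj_dist a2 (by omega) (by omega)
      have d2 := adj_dist a3 (by omega) (by omega)
      have d3 := adj_dist a4 (by omega) (by omega)
      have t1 : |(py / y : ℝ) - pq / q| ≤ |(py / y : ℝ) - ps / s| + |(ps / s : ℝ) - pr / r|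
          + |(pr / r : ℝ) - pq / q| := by
        have := abs_add_three ((py / y : ℝ) - ps / s) (ps / s - pr / r) (pr / r - pq / q)
        simpa using this
      have b : ∀ a b : ℝ, (y : ℝ) ≤ a → (s : ℝ) ≤ b → 1 / (a * b) ≤ C0 / (y : ℝ) ^ 3 := by
        intro a b ha hb
        rw [div_le_div_iff₀ (mul_pos (hY.trans_le ha) (hS.trans_le hb)) (by positivity), one_mul]
        calc (y : ℝ) ^ 3 = y * (y : ℝ) ^ 2 := by ring
          _ ≤ y * (C0 * s) := by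
            apply mul_le_mul_of_nonneg_left a2.low hY.le
          _ = C0 * (y * s) := by ring
          _ ≤ C0 * (a * b) := by
            apply mul_le_mul_of_nonneg_left _ hC00.le
            exact mul_le_mul ha hb hS.le (hY.le.trans ha)
      have q1 := b y s le_rfl le_rfl
      have q2 := b s r hys hsr
      have q3 := b r q (hys.trans hsr) (hsr.trans hrq)
      rw [d1, d2, d3] at t1
      have : 3 * C0 / (y : ℝ) ^ 3 = C0 / (y : ℝ) ^ 3 + C0 / (y : ℝ) ^ 3 + C0 / (y : ℝ) ^ 3 := by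
        ring
      rw [this]
      linarith) (by
        have := a2.low
        have h2 : C0 * (s : ℝ) ≤ C0 * q := by
          apply mul_le_mul_of_nonneg_left (hsr.trans hrq) hC00.le
        have h3 : 0 ≤ C0 * (q : ℝ) := by positivity
        nlinarith)
    rw [Nat.subtype_card HB (by intro E; rw [hHB]; simp)] at h1
    exact h1
  obtain ⟨HV, hHV⟩ : ∃ HV : Set ℝ, HV = {E : ℝ | |E| ≤ 5 ∧ ∃ d, (r : ℝ) ^ (-2 - 1 / 50 : ℝ) ≤ d ∧
    (r : ℝ) ^ (1 + 1 / 200 : ℝ) * d < bm (Dl pr r) mu E d} := ⟨_, rfl⟩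
  obtain ⟨η, hη⟩ : ∃ η : ℝ, η = (r : ℝ) ^ (-2 - 1 / 50 : ℝ) := ⟨_, rfl⟩
  have hη0 : 0 < η := by rw [hη]; positivity
  obtain ⟨Ds, hDs⟩ : ∃ Ds : ℝ → Set ℝ, Ds = fun e =>
    if om (Dl pr r) e ≤ (r : ℝ) ^ (-2 + c1 / 2) then
      Set.Icc (e - (11 * om (Dl pr r) e + η)) (e + (11 * om (Dl pr r) e + η))
    else (Set.Icc (α e - η) (α e + 14 * C0 / r ^ 2) ∪ Set.Icc (β e - 14 * C0 / r ^ 2) (β e + η)) ∪
      (((rts (Dl pq q)).filter (fun E => α e + 14 * C0 / r ^ 2 ≤ E ∧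
        E ≤ β e - 14 * C0 / r ^ 2) : Finset ℝ) : Set ℝ) := ⟨_, rfl⟩
  -- the covering
  have hcov : (rts (Dl pq q) : Set ℝ) ⊆ ((((Bad.image ev : Finset ℝ) : Set ℝ) ∪ (HB : Set ℝ)) ∪ HV)
      ∪ ⋃ e ∈ rts (Dl pr r), Ds e := by
    intro E hE
    have hE' : E ∈ rts (Dl pq q) := hE
    obtain ⟨i, rfl⟩ := e2 E hE'
    by_cases j1 : i ∈ Bad
    · left; left; left
      exact Finset.mem_coe.2 (Finset.mem_image_of_mem ev j1)
    by_cases j2 : ev i ∈ HB
    · left; left; right; exact j2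
    by_cases j3 : ev i ∈ HV
    · left; right; exact j3
    right
    have j1' : ∑ a ∈ (Finset.range q).filter
      (fun a => 2 * (1 - (r : ℝ) ^ (-(1 / 250) : ℝ)) < ‖1 - ex (r * θ a)‖),
        ‖(cut r L 0 (fun k => Pool.Agent.H98.AM.ext q 1 (u i) (((a + o a : ℕ) : ℤ) + k)) :
          Rg (6 * L * r))‖ ^ 2 ≤ L * r := by
      rw [hBad] at j1
      simpa using j1
    have j2' : NoHeavy py y (ev i) ((y : ℝ) ^ (-(7 / 4) : ℝ)) := by
      have h1 : NoHeavy py y (ev i) ((y : ℝ) ^ (-(5 / 3) : ℝ)) := by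
        by_contra h2
        exact j2 (by rw [hHB]; exact Finset.mem_filter.2 ⟨hE', h2⟩)
      intro e he hh
      exact lt_of_le_of_lt (Real.rpow_le_rpow_of_exponent_le hY1 (by norm_num)) (h1 e he hh)
    have j3' : ∀ d, (r : ℝ) ^ (-2 - 1 / 50 : ℝ) ≤ d →
        bm (Dl pr r) mu (ev i) d ≤ (r : ℝ) ^ (1 + 1 / 200 : ℝ) * d := by
      intro d hd
      by_contra hcon
      push Not at hcon
      apply j3
      rw [hHV]
      exact ⟨(bQ _ hE').trans (by norm_num), d, hd, hcon⟩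
    obtain ⟨E', hE1, hE2⟩ := HN1 py y ps s pr r pq q L (6 * L * r) (Fin q) u ev mu o θ m a2 a3 a4
      (k2.trans hKy) hu mu0 mu1 hL le_rfl hphase i j2' j3' j1'
    obtain ⟨e, he, heb⟩ := hbandcov E' hE2
    have her : e ∈ rts (Dl pr r) := (mem_rts dR).2 he
    obtain ⟨b1, b2, b3, b4, -, -⟩ := hband e he
    refine Set.mem_biUnion her ?_
    rw [← hη] at hE1
    obtain ⟨f1, f2⟩ := abs_le.1 hE1
    obtain ⟨g1, g2⟩ := heb
    rw [hDs]
    simp only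
    split_ifs with hw
    · exact ⟨by linarith, by linarith⟩
    · by_cases h1 : ev i ≤ α e + 14 * C0 / r ^ 2
      · left; left
        exact ⟨by linarith, h1⟩
      by_cases h2 : β e - 14 * C0 / r ^ 2 ≤ ev i
      · left; right
        exact ⟨h2, by linarith⟩
      right
      push Not at h1 h2
      exact Finset.mem_coe.2 (Finset.mem_filter.2 ⟨hE', h1.le, h2.le⟩)
  -- boundedness
  have hDsb : ∀ e, Bornology.IsBounded (Ds e) := by
    intro e
    rw [hDs]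
    simp only
    split_ifs
    · exact Metric.isBounded_Icc _ _
    · exact ((Metric.isBounded_Icc _ _).union (Metric.isBounded_Icc _ _)).union
        (Finset.finite_toSet _).isBounded
  have hHVb : Bornology.IsBounded HV := by
    apply (Metric.isBounded_Icc (-5 : ℝ) 5).subset
    intro E hE
    rw [hHV] at hE
    exact abs_le.1 hE.1
  have hUb : Bornology.IsBounded (⋃ e ∈ rts (Dl pr r), Ds e) := by
    rw [Bornology.isBounded_biUnion_finset]
    intro e _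
    exact hDsb e
  obtain ⟨δ, hδ⟩ : ∃ δ : ℝ, δ = (r : ℝ) ^ (-3 : ℝ) := ⟨_, rfl⟩
  have hδ0 : 0 < δ := by rw [hδ]; positivity
  have hδ' : δ = 1 / (r : ℝ) ^ 3 := by
    rw [hδ, Real.rpow_neg hR.le, one_div]
    congr 1
    exact_mod_cast Real.rpow_natCast (r : ℝ) 3
  obtain ⟨i1, i2, i3, i4, i5⟩ := hI3 δ hδ0
  have hN0 : Ncov δ (rts (Dl pq q) : Set ℝ) ≤ 2 * Bad.card + 2 * HB.card + Ncov δ HV
      + ∑ e ∈ rts (Dl pr r), Ncov δ (Ds e) := by
    refine (i2 _ _ ?_ hcov).trans ?_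
    · exact ((((Finset.finite_toSet _).isBounded).union (Finset.finite_toSet _).isBounded).union
        hHVb).union hUb
    refine (i3 _ _).trans ?_
    refine Nat.add_le_add ?_ (i5 ℝ (rts (Dl pr r)) Ds (fun e _ => hDsb e))
    refine (i3 _ _).trans ?_
    refine Nat.add_le_add ?_ le_rfl
    refine (i3 _ _).trans ?_
    refine Nat.add_le_add ?_ (i1 HB)
    refine (i1 _).trans ?_
    exact Nat.mul_le_mul_left 2 Finset.card_image_le
  -- bound of one piece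
  have hηr : η / δ ≤ (r : ℝ) ^ (1 - c1) := by
    rw [hη, hδ, ← Real.rpow_sub hR]
    exact Real.rpow_le_rpow_of_exponent_le hR1 (by linarith)
  have h1c : (1 : ℝ) ≤ (r : ℝ) ^ (1 - c1) := Real.one_le_rpow hR1 (by linarith)
  have hcm : (r : ℝ) ^ (1 - c1) ≤ (r : ℝ) ^ (1 + c1 / 2) :=
    Real.rpow_le_rpow_of_exponent_le hR1 (by linarith)
  have hpiece : ∀ e ∈ rts (Dl pr r), (Ncov δ (Ds e) : ℝ) ≤ 27 * (r : ℝ) ^ (1 - c1)
      + (if (r : ℝ) ^ (-2 - c1) ≤ om (Dl pr r) e then 27 * (r : ℝ) ^ (1 + c1 / 2) else 0)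
      + (if (r : ℝ) ^ (-2 + c1 / 2) ≤ om (Dl pr r) e then A * r else 0) := by
    intro e he
    have hpos := pR e he
    obtain ⟨b1, b2, b3, b4, b5, b6⟩ := hband e ((mem_rts dR).1 he)
    by_cases hw : om (Dl pr r) e ≤ (r : ℝ) ^ (-2 + c1 / 2)
    · have hD : Ds e = Set.Icc (e - (11 * om (Dl pr r) e + η))
          (e + (11 * om (Dl pr r) e + η)) := by
        rw [hDs]; simp only; rw [if_pos hw]
      rw [hD]
      have h1 := i4 (e - (11 * om (Dl pr r) e + η)) (e + (11 * om (Dl pr r) e + η)) (by linarith)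
      have h2 : (e + (11 * om (Dl pr r) e + η) - (e - (11 * om (Dl pr r) e + η))) / δ + 3
          = 22 * (om (Dl pr r) e / δ) + 2 * (η / δ) + 3 := by
        field_simp
        ring
      rw [h2] at h1
      have h0 : (0 : ℝ) ≤ (if (r : ℝ) ^ (-2 + c1 / 2) ≤ om (Dl pr r) e then A * r else 0) := by
        split_ifs
        · positivity
        · exact le_rfl
      by_cases hn : (r : ℝ) ^ (-2 - c1) ≤ om (Dl pr r) e
      · rw [if_pos hn]
        have h3 : om (Dl pr r) e / δ ≤ (r : ℝ) ^ (1 + c1 / 2) := by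
          rw [hδ, div_le_iff₀ (by positivity), ← Real.rpow_add hR]
          refine hw.trans (le_of_eq ?_)
          congr 1
          ring
        linarith
      · rw [if_neg hn]
        push Not at hn
        have h3 : om (Dl pr r) e / δ ≤ (r : ℝ) ^ (1 - c1) := by
          rw [hδ, div_le_iff₀ (by positivity), ← Real.rpow_add hR]
          refine hn.le.trans (le_of_eq ?_)
          congr 1
          ring
        linarith
    · have hD : Ds e = (Set.Icc (α e - η) (α e + 14 * C0 / r ^ 2) ∪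
          Set.Icc (β e - 14 * C0 / r ^ 2) (β e + η)) ∪
          (((rts (Dl pq q)).filter (fun E => α e + 14 * C0 / r ^ 2 ≤ E ∧
          E ≤ β e - 14 * C0 / r ^ 2) : Finset ℝ) : Set ℝ) := by
        rw [hDs]; simp only; rw [if_neg hw]
      push Not at hw
      rw [if_pos hw.le]
      have h0 : (0 : ℝ) ≤ (if (r : ℝ) ^ (-2 - c1) ≤ om (Dl pr r) e then
          27 * (r : ℝ) ^ (1 + c1 / 2) else 0) := by
        split_ifs
        · positivity
        · exact le_rfl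
      have hC14 : (0 : ℝ) < 14 * C0 / r ^ 2 := by positivity
      have h1 := i4 (α e - η) (α e + 14 * C0 / r ^ 2) (by linarith)
      have h2 := i4 (β e - 14 * C0 / r ^ 2) (β e + η) (by linarith)
      have hδr : (14 * C0 / (r : ℝ) ^ 2) / δ = 14 * C0 * r := by
        rw [hδ']
        field_simp
      have h3 : (α e + 14 * C0 / r ^ 2 - (α e - η)) / δ + 3 = 14 * C0 * r + η / δ + 3 := by
        rw [← hδr]
        field_simp
        ring
      have h4 : (β e + η - (β e - 14 * C0 / r ^ 2)) / δ + 3 = 14 * C0 * r + η / δ + 3 := by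
        rw [← hδr]
        field_simp
        ring
      rw [h3] at h1
      rw [h4] at h2
      have h5 := HI1 pr r pq q a4.cop a4.cop' hr3 hq3 (adj_dist_le a4 (by omega) (by omega))
        a4.low (α e + 14 * C0 / r ^ 2) (β e - 14 * C0 / r ^ 2) (by
          intro t ht ρ hρ i j hi hj
          have h13 : 13 * C0 / (r : ℝ) ^ 2 < 14 * C0 / r ^ 2 := by
            apply div_lt_div_of_pos_right _ (by positivity)
            linarith
          apply b6 t ρ hρ i j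
          · exact ⟨by linarith [hi.1], by linarith [hi.2]⟩
          · exact ⟨by linarith [hj.1], by linarith [hj.2]⟩)
      have h6 : K4 * q / r ≤ K4 * C0 * r := by
        rw [div_le_iff₀ hR]
        have := a4.upp
        nlinarith
      have h7 : (Ncov δ (Ds e) : ℝ) ≤ (14 * C0 * r + η / δ + 3) + (14 * C0 * r + η / δ + 3)
          + 2 * (K4 * C0 * r) := by
        rw [hD]
        have n1 : Ncov δ ((Set.Icc (α e - η) (α e + 14 * C0 / r ^ 2) ∪
          Set.Icc (β e - 14 * C0 / r ^ 2) (β e + η)) ∪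
          (((rts (Dl pq q)).filter (fun E => α e + 14 * C0 / r ^ 2 ≤ E ∧
          E ≤ β e - 14 * C0 / r ^ 2) : Finset ℝ) : Set ℝ))
            ≤ Ncov δ (Set.Icc (α e - η) (α e + 14 * C0 / r ^ 2)) +
              Ncov δ (Set.Icc (β e - 14 * C0 / r ^ 2) (β e + η)) +
              2 * ((rts (Dl pq q)).filter (fun E => α e + 14 * C0 / r ^ 2 ≤ E ∧
          E ≤ β e - 14 * C0 / r ^ 2)).card := by
          refine (i3 _ _).trans ?_
          refine Nat.add_le_add (i3 _ _) (i1 _)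
        have n2 : (Ncov δ ((Set.Icc (α e - η) (α e + 14 * C0 / r ^ 2) ∪
          Set.Icc (β e - 14 * C0 / r ^ 2) (β e + η)) ∪
          (((rts (Dl pq q)).filter (fun E => α e + 14 * C0 / r ^ 2 ≤ E ∧
          E ≤ β e - 14 * C0 / r ^ 2) : Finset ℝ) : Set ℝ)) : ℝ)
            ≤ Ncov δ (Set.Icc (α e - η) (α e + 14 * C0 / r ^ 2)) +
              Ncov δ (Set.Icc (β e - 14 * C0 / r ^ 2) (β e + η)) +
              2 * ((rts (Dl pq q)).filter (fun E => α e + 14 * C0 / r ^ 2 ≤ E ∧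
          E ≤ β e - 14 * C0 / r ^ 2)).card := by exact_mod_cast n1
        linarith
      have h8 : η / δ ≤ r := by
        refine hηr.trans ?_
        calc (r : ℝ) ^ (1 - c1) ≤ (r : ℝ) ^ (1 : ℝ) :=
              Real.rpow_le_rpow_of_exponent_le hR1 (by linarith)
          _ = r := Real.rpow_one _
      rw [hA]
      have h9 : (0 : ℝ) ≤ 27 * (r : ℝ) ^ (1 - c1) := by positivity
      have h10 : (C0 : ℝ) * r ≥ r := by nlinarith
      nlinarith
  -- sum of the pieces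
  have hsum : (∑ e ∈ rts (Dl pr r), (Ncov δ (Ds e) : ℝ)) ≤ 27 * (r : ℝ) ^ (2 - c1)
      + 27 * (r : ℝ) ^ (2 - c1 / 2) + A * (r : ℝ) ^ (2 - c1 / 2) := by
    refine (Finset.sum_le_sum hpiece).trans ?_
    rw [Finset.sum_add_distrib, Finset.sum_add_distrib, Finset.sum_const, cR, nsmul_eq_mul,
      ← Finset.sum_filter, ← Finset.sum_filter, Finset.sum_const, Finset.sum_const,
      nsmul_eq_mul, nsmul_eq_mul]
    have s1 : (r : ℝ) * (27 * (r : ℝ) ^ (1 - c1)) = 27 * (r : ℝ) ^ (2 - c1) := by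
      rw [show (2 - c1 : ℝ) = 1 + (1 - c1) by ring, Real.rpow_add hR, Real.rpow_one]
      ring
    have s2 : (((rts (Dl pr r)).filter (fun e => (r : ℝ) ^ (-2 - c1) ≤ om (Dl pr r) e)).card : ℝ)
        ≤ (r : ℝ) ^ (1 - c1) := by
      have h1 := HM4 px x py y ps s pr r a1 a2 a3 (k1.trans hKx)
      have h2 : ((rts (Dl pr r)).filter (fun e => (r : ℝ) ^ (-2 - c1) ≤ om (Dl pr r) e)).card ≤
          ((rts (Dl pr r)).filter (fun e => (r : ℝ) ^ (-2 - c0) ≤ om (Dl pr r) e)).card := by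
        apply Finset.card_le_card
        intro e he
        rw [Finset.mem_filter] at he ⊢
        exact ⟨he.1, (Real.rpow_le_rpow_of_exponent_le hR1 (by linarith)).trans he.2⟩
      calc _ ≤ (((rts (Dl pr r)).filter
            (fun e => (r : ℝ) ^ (-2 - c0) ≤ om (Dl pr r) e)).card : ℝ) := by exact_mod_cast h2
        _ ≤ (r : ℝ) ^ (1 - c0) := h1
        _ ≤ _ := Real.rpow_le_rpow_of_exponent_le hR1 (by linarith)
    have s3 : (((rts (Dl pr r)).filter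
        (fun e => (r : ℝ) ^ (-2 + c1 / 2) ≤ om (Dl pr r) e)).card : ℝ)
        ≤ (r : ℝ) ^ (1 - c1 / 2) := by
      have h1 : (((rts (Dl pr r)).filter
          (fun e => (r : ℝ) ^ (-2 + c1 / 2) ≤ om (Dl pr r) e)).card : ℝ)
          * (r : ℝ) ^ (-2 + c1 / 2) ≤ 1 / r := by
        rw [← sR, ← nsmul_eq_mul, ← Finset.sum_const]
        refine (Finset.sum_le_sum (g := fun e => om (Dl pr r) e) ?_).trans
          (Finset.sum_le_sum_of_subset_of_nonneg (Finset.filter_subset _ _)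
            (fun e he _ => (pR e he).le))
        intro e he
        exact (Finset.mem_filter.1 he).2
      have h2 : (1 : ℝ) / r = (r : ℝ) ^ (1 - c1 / 2) * (r : ℝ) ^ (-2 + c1 / 2) := by
        rw [← Real.rpow_add hR, show (1 - c1 / 2 + (-2 + c1 / 2) : ℝ) = -1 by ring,
          Real.rpow_neg_one, one_div]
      rw [h2] at h1
      exact le_of_mul_le_mul_right h1 (by positivity)
    have s4 : (r : ℝ) ^ (1 - c1) * (27 * (r : ℝ) ^ (1 + c1 / 2))
        = 27 * (r : ℝ) ^ (2 - c1 / 2) := by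
      have hk := Real.rpow_add hR (1 - c1) (1 + c1 / 2)
      rw [show (2 - c1 / 2 : ℝ) = (1 - c1) + (1 + c1 / 2) by ring, hk]
      ring
    have s5 : (r : ℝ) ^ (1 - c1 / 2) * (A * r) = A * (r : ℝ) ^ (2 - c1 / 2) := by
      rw [show (2 - c1 / 2 : ℝ) = (1 - c1 / 2) + 1 by ring, Real.rpow_add hR, Real.rpow_one]
      ring
    rw [s1, ← s4, ← s5]
    gcongr
  -- the other terms
  have u1 : (2 * Bad.card : ℝ) ≤ 1 / 6 * (r : ℝ) ^ (2 - c1 / 4) := by
    refine le_trans ?_ (hT1 r (k8.trans hKr))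
    have h1 : (q : ℝ) ≤ C0 * (r : ℝ) ^ 2 := a4.upp
    calc (2 * Bad.card : ℝ) ≤ 2 * (K3 * q * (r : ℝ) ^ (-(1 / 500) : ℝ)) := by gcongr
      _ ≤ 2 * (K3 * (C0 * (r : ℝ) ^ 2) * (r : ℝ) ^ (-(1 / 500) : ℝ)) := by gcongr
      _ = 2 * K3 * C0 * (r : ℝ) ^ (2 - 1 / 500 : ℝ) := by
        rw [show (2 - 1 / 500 : ℝ) = 2 + (-(1 / 500)) by norm_num, Real.rpow_add hR,
          show ((r : ℝ) ^ (2 : ℝ)) = (r : ℝ) ^ (2 : ℕ) by exact_mod_cast Real.rpow_natCast (r : ℝ) 2]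
        ring
  have u2 : (2 * HB.card : ℝ) ≤ 1 / 6 * (r : ℝ) ^ (2 - c1 / 4) := by
    refine le_trans ?_ (hT2 r (k9.trans hKr))
    have h1 : (q : ℝ) ≤ C0 * (r : ℝ) ^ 2 := a4.upp
    have p2 := pw C0 s y (-(3 / 4)) hC0 hS hY a2.low a2.upp
    have p3 := pw C0 r s (-(3 / 4) / 2) hC0 hR hS a3.low a3.upp
    calc (2 * HB.card : ℝ) ≤ 2 * (K5 * q * (y : ℝ) ^ (-(3 / 4) : ℝ)) := by gcongr
      _ ≤ 2 * (K5 * (C0 * (r : ℝ) ^ 2) * (C0 ^ (|(-(3 / 4) : ℝ)| / 2) *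
          (C0 ^ (|(-(3 / 4) / 2 : ℝ)| / 2) * (r : ℝ) ^ (-(3 / 4) / 2 / 2 : ℝ)))) := by
        gcongr
        refine p2.trans ?_
        gcongr
      _ = 2 * K5 * C0 * (C0 ^ (|(-(3 / 4) : ℝ)| / 2) * C0 ^ (|(-(3 / 4) / 2 : ℝ)| / 2))
          * (r : ℝ) ^ (2 + -(3 / 4) / 2 / 2 : ℝ) := by
        have hk : (r : ℝ) ^ (2 + -(3 / 4) / 2 / 2 : ℝ)
            = (r : ℝ) ^ (2 : ℝ) * (r : ℝ) ^ (-(3 / 4) / 2 / 2 : ℝ) := Real.rpow_add hR _ _
        rw [hk, show ((r : ℝ) ^ (2 : ℝ)) = (r : ℝ) ^ (2 : ℕ) by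
          exact_mod_cast Real.rpow_natCast (r : ℝ) 2]
        ring
  have u3 : (Ncov δ HV : ℝ) ≤ 1 / 6 * (r : ℝ) ^ (2 - c1 / 4) := by
    refine le_trans ?_ (hT3 r (k10.trans hKr))
    have h1 := hI4 (Dl pr r) mu ((r : ℝ) ^ (1 + 1 / 200 : ℝ)) ((r : ℝ) ^ (-2 - 1 / 50 : ℝ)) δ mu0
      bR mu2 (Real.one_le_rpow hR1 (by norm_num)) hδ0 (by
        rw [hδ]
        exact Real.rpow_le_rpow_of_exponent_le hR1 (by norm_num))
      (Real.rpow_le_one_of_one_le_of_nonpos hR1 (by norm_num))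
    rw [← hHV] at h1
    have h2 : Real.log (1 / (r : ℝ) ^ (-2 - 1 / 50 : ℝ)) ≤ 3 * Real.log r := by
      rw [one_div, ← Real.rpow_neg hR.le, Real.log_rpow hR]
      have h4 : 0 ≤ Real.log r := Real.log_nonneg hR1
      nlinarith
    have h3 : (r : ℝ) ^ (2 - 1 / 200 : ℝ) = 1 / ((r : ℝ) ^ (1 + 1 / 200 : ℝ) * δ) := by
      rw [hδ, ← Real.rpow_add hR, eq_div_iff (by positivity), ← Real.rpow_add hR]
      norm_num
    calc (Ncov δ HV : ℝ) ≤ _ := h1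
      _ = 10000 * (1 + Real.log (1 / (r : ℝ) ^ (-2 - 1 / 50 : ℝ)))
          * (1 / ((r : ℝ) ^ (1 + 1 / 200 : ℝ) * δ)) := by ring
      _ ≤ 10000 * (3 * (1 + Real.log r)) * (1 / ((r : ℝ) ^ (1 + 1 / 200 : ℝ) * δ)) := by
        gcongr
        linarith
      _ = _ := by rw [h3]; ring
  have u4 := hT4 r (k11.trans hKr)
  have u5 := hT5 r (k12.trans hKr)
  have u6 := hT6 r (k13.trans hKr)
  have hfin : (Ncov δ (rts (Dl pq q) : Set ℝ) : ℝ) ≤ 2 * Bad.card + 2 * HB.card + Ncov δ HV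
      + ∑ e ∈ rts (Dl pr r), (Ncov δ (Ds e) : ℝ) := by exact_mod_cast hN0
  rw [← hδ]
  linarith

end Pool.Agent.H31.AM
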