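import Pool.Agent.H98.AM.Targets

/-! helper31: power bookkeeping for MP_29bb0a_mp (modules M4, N3). -/

open Filter Topology

namespace Pool.Agent.H31.AM

open Pool.Agent.H98.AM

theorem pw (C0 R S a : ℝ) (hC : 1 ≤ C0) (hR : 0 < R) (hS : 0 < S) (h1 : S ^ 2 ≤ C0 * R)
    (h2 : R ≤ C0 * S ^ 2) : S ^ a ≤ C0 ^ (|a| / 2) * R ^ (a / 2) := by
  have hC0 : 0 < C0 := by linarith
  have e1 : S ^ a = (S ^ 2) ^ (a / 2) := by
    rw [← Real.rpow_natCast S 2, ← Real.rpow_mul hS.le]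
    congr 1
    push_cast
    ring
  rw [e1]
  rcases le_total 0 a with ha | ha
  · rw [abs_of_nonneg ha, ← Real.mul_rpow hC0.le hR.le]
    exact Real.rpow_le_rpow (by positivity) h1 (by positivity)
  · rw [abs_of_nonpos ha]
    have h3 : R / C0 ≤ S ^ 2 := by
      rw [div_le_iff₀ hC0]; linarith
    have h4 : (S ^ 2) ^ (a / 2) ≤ (R / C0) ^ (a / 2) :=
      Real.rpow_le_rpow_of_nonpos (by positivity) h3 (by linarith)
    refine h4.trans (le_of_eq ?_)
    rw [Real.div_rpow hR.le hC0.le, neg_div, Real.rpow_neg hC0.le]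
    field_simp

/-- `A (1 + log R) R^a ≤ B R^b` for large `R` if `a < b`, `B > 0`. -/
theorem ev_pow (A B a b : ℝ) (hB : 0 < B) (hab : a < b) :
    ∀ᶠ R : ℝ in atTop, A * (1 + Real.log R) * R ^ a ≤ B * R ^ b := by
  have h1 : Tendsto (fun R : ℝ => A * (1 + Real.log R) * R ^ (-(b - a))) atTop (𝓝 0) := by
    have h2 : Tendsto (fun R : ℝ => R ^ (-(b - a))) atTop (𝓝 0) :=
      tendsto_rpow_neg_atTop (by linarith)
    have h3 : Tendsto (fun R : ℝ => Real.log R * R ^ (-(b - a))) atTop (𝓝 0) := by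
      have h4 := (isLittleO_log_rpow_atTop (r := b - a) (by linarith)).tendsto_div_nhds_zero
      refine h4.congr' ?_
      filter_upwards [eventually_gt_atTop 0] with R hR
      rw [Real.rpow_neg hR.le, div_eq_mul_inv]
    have h5 := ((h2.add h3).const_mul A)
    simp only [add_zero, mul_zero] at h5
    refine h5.congr (fun R => ?_)
    ring
  filter_upwards [h1.eventually (gt_mem_nhds hB), eventually_gt_atTop (0 : ℝ)] with R hR hR0
  have h6 : R ^ a = R ^ (-(b - a)) * R ^ b := by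
    rw [← Real.rpow_add hR0]; congr 1; ring
  rw [h6, ← mul_assoc]
  exact mul_le_mul_of_nonneg_right hR.le (by positivity)

theorem ev_pow' (A B a b : ℝ) (hA : 0 ≤ A) (hB : 0 < B) (hab : a < b) :
    ∀ᶠ R : ℝ in atTop, A * R ^ a ≤ B * R ^ b := by
  filter_upwards [ev_pow A B a b hB hab, eventually_ge_atTop (1 : ℝ)] with R hR hR1
  refine le_trans ?_ hR
  have h0 : 0 ≤ Real.log R := Real.log_nonneg hR1
  have h1 : 0 ≤ R ^ a := by positivity
  nlinarith [mul_nonneg hA h1, mul_nonneg (mul_nonneg hA h0) h1]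

theorem thr {P : ℝ → Prop} (h : ∀ᶠ R : ℝ in atTop, P R) : ∃ K : ℝ, ∀ R, K ≤ R → P R :=
  eventually_atTop.1 h

/-- basic consequences of adjacency -/
theorem adj_le {C0 : ℝ} {p : ℤ} {s : ℕ} {p' : ℤ} {r : ℕ} (h : Adj C0 p s p' r) (hs : 1 ≤ s)
    (hC : C0 ≤ s) : (s : ℝ) ≤ r := by
  have h1 := h.low
  have hs' : (0 : ℝ) < s := by exact_mod_cast hs
  have hr : (0 : ℝ) ≤ r := by positivity
  nlinarith [mul_le_mul_of_nonneg_right hC hr]

theorem adj_dist {C0 : ℝ} {p : ℤ} {s : ℕ} {p' : ℤ} {r : ℕ} (h : Adj C0 p s p' r) (hs : 1 ≤ s)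
    (hr : 1 ≤ r) : |(p / s : ℝ) - p' / r| = 1 / (s * r) := by
  have h1 := h.det
  have hs' : (0 : ℝ) < s := by exact_mod_cast hs
  have hr' : (0 : ℝ) < r := by exact_mod_cast hr
  have h2 : |(p * r - p' * s : ℝ)| = 1 := by exact_mod_cast h1
  have h3 : (p / s : ℝ) - p' / r = (p * r - p' * s) / (s * r) := by
    field_simp
  rw [h3, abs_div, h2, abs_of_pos (by positivity)]

end Pool.Agent.H31.AM
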